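import Mathlib

/-!
# The cyclovarieties meet the unit torus
-/

open Finset Polynomial

namespace Pool.Agent.Results.MP_086516_nt.MeetsTorus

/-- `ζ_k = exp(2πi/k)` -/
noncomputable def ζ (k : ℕ) : ℂ := Complex.exp (2 * Real.pi * Complex.I / k)

/-- the set `A_k` of the coefficient vectors, with respect to `1, ζ_k, …, ζ_k^(φ(k)-1)`, of the
`k`-th roots of unity -/
def A (k : ℕ) : Set (Fin (Nat.totient k) → ℤ) :=
  {a | (∑ j, (a j : ℂ) * ζ k ^ (j : ℕ)) ^ k = 1}

/-- the Laurent polynomial `F_k`, as a function -/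
noncomputable def F (k : ℕ) (x : Fin (Nat.totient k) → ℂ) : ℂ :=
  ∑ᶠ a ∈ A k, ∏ j, x j ^ (a j)

/-- evaluation of a coefficient vector -/
noncomputable def val (k : ℕ) (a : Fin (Nat.totient k) → ℤ) : ℂ := ∑ j, (a j : ℂ) * ζ k ^ (j : ℕ)

lemma prim (k : ℕ) (hk : 0 < k) : IsPrimitiveRoot (ζ k) k :=
  Complex.isPrimitiveRoot_exp k hk.ne'

lemma val_injective (k : ℕ) (hk : 0 < k) : Function.Injective (val k) := by
  intro a b hab
  let P : ℤ[X] := ∑ j : Fin (Nat.totient k), C (a j - b j) * X ^ (j : ℕ)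
  have hP : aeval (ζ k) P = 0 := by
    simp only [P, map_sum, map_mul, map_pow, aeval_X, aeval_C]
    have : val k a - val k b = 0 := sub_eq_zero.2 hab
    rw [← this, val, val, ← sum_sub_distrib]
    refine sum_congr rfl fun j _ => ?_
    simp
    ring
  have hdvd : cyclotomic k ℤ ∣ P := by
    rw [cyclotomic_eq_minpoly (prim k hk) hk]
    exact minpoly.isIntegrallyClosed_dvd ((prim k hk).isIntegral hk) hP
  have hcoef : ∀ j : Fin (Nat.totient k), P.coeff j = a j - b j := by
    intro j
    simp only [P, finsetSum_coeff, coeff_C_mul, coeff_X_pow]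
    rw [sum_eq_single j]
    · simp
    · intro i _ hi
      rw [if_neg, mul_zero]
      intro h
      exact hi (Fin.ext h.symm)
    · simp
  have hP0 : P = 0 := by
    by_contra hne
    have h1 := degree_le_of_dvd hdvd hne
    rw [degree_cyclotomic] at h1
    have h2 : P.degree < (Nat.totient k : ℕ) := degree_sum_fin_lt fun j => a j - b j
    exact absurd h1 (not_le.2 h2)
  ext j
  have := hcoef j
  rw [hP0, coeff_zero] at this
  omega

lemma exists_val_pow (k : ℕ) (hk : 0 < k) (i : ℕ) : ∃ a, val k a = ζ k ^ i := by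
  let R : ℤ[X] := X ^ i %ₘ cyclotomic k ℤ
  refine ⟨fun j => R.coeff j, ?_⟩
  have hmon := cyclotomic.monic k ℤ
  have hdeg : R.natDegree < Nat.totient k := by
    have h := natDegree_modByMonic_lt (X ^ i : ℤ[X]) hmon (by
      intro h1
      have := congrArg natDegree h1
      rw [natDegree_cyclotomic, natDegree_one] at this
      exact absurd this (Nat.totient_pos.2 hk).ne')
    rwa [natDegree_cyclotomic] at h
  have h0 : aeval (ζ k) (cyclotomic k ℤ) = 0 := by
    rw [cyclotomic_eq_minpoly (prim k hk) hk]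
    exact minpoly.aeval _ _
  have h1 : aeval (ζ k) R = ζ k ^ i := by
    have h2 := modByMonic_add_div (X ^ i : ℤ[X]) (cyclotomic k ℤ)
    have h3 := congrArg (aeval (ζ k)) h2
    rw [map_add, map_mul, h0, zero_mul, add_zero, map_pow, aeval_X] at h3
    exact h3
  rw [← h1, aeval_eq_sum_range' hdeg, val, ← Fin.sum_univ_eq_sum_range
    (fun j => R.coeff j • ζ k ^ j)]
  refine sum_congr rfl fun j _ => ?_
  simp

/-! ### A trigonometric sum with small mean takes the value one -/

lemma geom (N : ℕ) (hN : 0 < N) (n : ℤ) (hn : |n| < N) :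
    ∑ t ∈ range N, (Complex.exp (2 * Real.pi * Complex.I * t / N)) ^ n =
      if n = 0 then (N : ℂ) else 0 := by
  split_ifs with h
  · simp [h]
  · have hprim := Complex.isPrimitiveRoot_exp N hN.ne'
    set w := Complex.exp (2 * Real.pi * Complex.I / N) with hw
    have e : ∀ t : ℕ, (Complex.exp (2 * Real.pi * Complex.I * t / N)) ^ n = (w ^ n) ^ t := by
      intro t
      have : Complex.exp (2 * Real.pi * Complex.I * t / N) = w ^ t := by
        rw [hw, ← Complex.exp_nat_mul]
        congr 1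
        ring
      rw [this, ← zpow_natCast, ← zpow_mul, ← zpow_natCast, ← zpow_mul, mul_comm]
    simp only [e]
    have h1 : w ^ n ≠ 1 := by
      intro h1
      rw [hprim.zpow_eq_one_iff_dvd] at h1
      have := Int.le_of_dvd (abs_pos.2 h) ((dvd_abs _ _).2 h1)
      omega
    have h2 : (w ^ n) ^ N = 1 := by
      rw [← zpow_natCast, ← zpow_mul, mul_comm, zpow_mul, zpow_natCast, hprim.pow_eq_one, one_zpow]
    have h3 := geom_sum_mul (w ^ n) N
    rw [h2, sub_self] at h3
    exact (mul_eq_zero.1 h3).resolve_right (sub_ne_zero.2 h1)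

lemma takes_one {ι : Type*} [DecidableEq ι] (d : ℕ) (S : Finset ι) (n : ι → Fin d → ℤ)
    (hS : S.Nonempty) (hz : (S.filter fun i => n i = 0).card ≤ 1)
    (hreal : ∀ x : Fin d → ℂ, (∀ j, ‖x j‖ = 1) → (∑ i ∈ S, ∏ j, x j ^ n i j).im = 0) :
    ∃ x : Fin d → ℂ, (∀ j, ‖x j‖ = 1) ∧ ∑ i ∈ S, ∏ j, x j ^ n i j = 1 := by
  obtain ⟨N, hN0, hN⟩ : ∃ N : ℕ, 0 < N ∧ ∀ i ∈ S, ∀ j, |n i j| < N := by
    refine ⟨∑ i ∈ S, ∑ j, (n i j).natAbs + 1, by omega, fun i hi j => ?_⟩
    have h1 : (n i j).natAbs ≤ ∑ j, (n i j).natAbs :=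
      single_le_sum (f := fun j => (n i j).natAbs) (fun _ _ => Nat.zero_le _) (mem_univ j)
    have h2 : ∑ j, (n i j).natAbs ≤ ∑ i ∈ S, ∑ j, (n i j).natAbs :=
      single_le_sum (f := fun i => ∑ j, (n i j).natAbs) (fun _ _ => Nat.zero_le _) hi
    rw [Int.abs_eq_natAbs]
    exact_mod_cast Nat.lt_succ_of_le (h1.trans h2)
  let z : (Fin d → ℕ) → ℝ → Fin d → ℂ := fun t s j =>
    Complex.exp ((s * (2 * Real.pi * t j / N) : ℝ) * Complex.I)
  have hz1 : ∀ t s j, ‖z t s j‖ = 1 := fun t s j => Complex.norm_exp_ofReal_mul_I _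
  let g : (Fin d → ℕ) → ℝ → ℂ := fun t s => ∑ i ∈ S, ∏ j, z t s j ^ n i j
  have hcont : ∀ t, Continuous fun s => (g t s).re := by
    intro t
    refine Complex.continuous_re.comp (continuous_finsetSum _ fun i _ =>
      continuous_finsetProd _ fun j _ => ?_)
    refine Continuous.zpow₀ (by fun_prop) _ fun s => Or.inl (Complex.exp_ne_zero _)
  have hsum : ∑ t ∈ Fintype.piFinset (fun _ : Fin d => range N), g t 1 =
      ((S.filter fun i => n i = 0).card : ℂ) * (N : ℂ) ^ d := by
    simp only [g]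
    rw [sum_comm]
    have e1 : ∀ i ∈ S, ∑ t ∈ Fintype.piFinset (fun _ : Fin d => range N), ∏ j, z t 1 j ^ n i j =
        if n i = 0 then (N : ℂ) ^ d else 0 := by
      intro i hi
      have e2 : ∀ t : Fin d → ℕ, ∏ j, z t 1 j ^ n i j =
          ∏ j, (Complex.exp (2 * Real.pi * Complex.I * t j / N)) ^ n i j := by
        intro t
        refine prod_congr rfl fun j _ => ?_
        simp only [z]
        congr 2
        push_cast
        ring
      rw [sum_congr rfl fun t _ => e2 t]
      rw [← prod_univ_sum (fun _ : Fin d => range N)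
        (fun j t => (Complex.exp (2 * Real.pi * Complex.I * t / N)) ^ n i j)]
      rw [prod_congr rfl fun j _ => geom N hN0 (n i j) (hN i hi j)]
      split_ifs with h
      · simp [h]
      · have : ∃ j, n i j ≠ 0 := by
          by_contra hcon
          push Not at hcon
          exact h (funext hcon)
        obtain ⟨j, hj⟩ := this
        exact prod_eq_zero (mem_univ j) (if_neg hj)
    rw [sum_congr rfl e1, ← sum_filter, sum_const, nsmul_eq_mul]
  -- some point with value at most one
  obtain ⟨t, ht⟩ : ∃ t, (g t 1).re ≤ 1 := by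
    by_contra hcon
    push Not at hcon
    have h1 := congrArg Complex.re hsum
    rw [Complex.re_sum] at h1
    have h2 : ((Fintype.piFinset (fun _ : Fin d => range N)).card : ℝ) <
        ∑ t ∈ Fintype.piFinset (fun _ : Fin d => range N), (g t 1).re := by
      have := sum_lt_sum_of_nonempty (s := Fintype.piFinset (fun _ : Fin d => range N))
        (f := fun _ => (1 : ℝ)) (g := fun t => (g t 1).re)
        (by
          rw [Fintype.piFinset_nonempty]
          intro _
          exact nonempty_range_iff.2 hN0.ne') (fun t _ => hcon t)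
      simpa using this
    rw [h1, Fintype.card_piFinset] at h2
    simp only [card_range, prod_const, card_univ, Fintype.card_fin] at h2
    have h3 : (((S.filter fun i => n i = 0).card : ℂ) * (N : ℂ) ^ d).re =
        ((S.filter fun i => n i = 0).card : ℝ) * (N : ℝ) ^ d := by
      rw [← Complex.ofReal_natCast, ← Complex.ofReal_natCast, ← Complex.ofReal_pow,
        ← Complex.ofReal_mul, Complex.ofReal_re]
    rw [h3] at h2
    push_cast at h2
    have h4 : ((S.filter fun i => n i = 0).card : ℝ) ≤ 1 := by exact_mod_cast hz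
    have h5 : (0 : ℝ) < (N : ℝ) ^ d := by positivity
    nlinarith
  have h0 : 1 ≤ (g t 0).re := by
    have : g t 0 = S.card := by
      simp [g, z]
    rw [this, Complex.natCast_re]
    exact_mod_cast hS.card_pos
  obtain ⟨s, -, hs⟩ := intermediate_value_Icc' (zero_le_one (α := ℝ)) (hcont t).continuousOn
    (Set.mem_Icc.2 ⟨ht, h0⟩)
  refine ⟨z t s, hz1 t s, ?_⟩
  apply Complex.ext
  · exact hs
  · rw [hreal _ (hz1 t s), Complex.one_im]

lemma conj_zpow_prod (d : ℕ) (x : Fin d → ℂ) (hx : ∀ j, ‖x j‖ = 1) (m : Fin d → ℤ) :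
    (starRingEnd ℂ) (∏ j, x j ^ m j) = ∏ j, x j ^ (-m) j := by
  rw [map_prod]
  refine prod_congr rfl fun j _ => ?_
  have h1 : x j * (starRingEnd ℂ) (x j) = 1 := by
    rw [Complex.mul_conj, Complex.normSq_eq_norm_sq, hx j]
    simp
  have h2 : (starRingEnd ℂ) (x j) = (x j)⁻¹ := eq_inv_of_mul_eq_one_right h1
  rw [map_zpow₀, h2, Pi.neg_apply, zpow_neg, inv_zpow]

lemma real_of_symm {ι : Type*} (d : ℕ) (S : Finset ι) (n : ι → Fin d → ℤ) (σ : ι → ι)
    (h1 : ∀ i ∈ S, σ i ∈ S) (h2 : ∀ i ∈ S, σ (σ i) = i) (h3 : ∀ i ∈ S, n (σ i) = -n i)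
    (x : Fin d → ℂ) (hx : ∀ j, ‖x j‖ = 1) : (∑ i ∈ S, ∏ j, x j ^ n i j).im = 0 := by
  rw [← Complex.conj_eq_iff_im, map_sum]
  rw [sum_congr rfl fun i _ => conj_zpow_prod d x hx (n i)]
  refine sum_bij' (fun i _ => σ i) (fun i _ => σ i) h1 h1 h2 h2 fun i hi => ?_
  rw [h3 i hi]

/-! ### The cyclovarieties -/

lemma mem_A (k : ℕ) (a : Fin (Nat.totient k) → ℤ) : a ∈ A k ↔ val k a ^ k = 1 := Iff.rfl

lemma A_finite (k : ℕ) (hk : 0 < k) : (A k).Finite := by
  have h : {z : ℂ | z ^ k = 1}.Finite := by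
    refine Set.Finite.subset (nthRootsFinset k (1 : ℂ)).finite_toSet fun z hz => ?_
    rw [mem_coe, mem_nthRootsFinset hk]
    exact hz
  exact h.preimage (val_injective k hk).injOn

/-- there are exactly `k` coefficient vectors -/
lemma A_ncard (k : ℕ) (hk : 0 < k) : (A k).ncard = k := by
  have himg : val k '' A k = (nthRootsFinset k (1 : ℂ) : Set ℂ) := by
    ext z
    rw [mem_coe, mem_nthRootsFinset hk]
    constructor
    · rintro ⟨a, ha, rfl⟩
      exact ha
    · intro hz
      have : NeZero k := ⟨hk.ne'⟩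
      obtain ⟨i, -, hi⟩ := (prim k hk).eq_pow_of_pow_eq_one hz
      obtain ⟨a, ha⟩ := exists_val_pow k hk i
      refine ⟨a, ?_, ha.trans hi⟩
      rw [mem_A, ha, hi, hz]
  rw [← Set.ncard_image_of_injective _ (val_injective k hk), himg, Set.ncard_coe_finset]
  exact (prim k hk).card_nthRootsFinset

lemma val_add (k : ℕ) (a b : Fin (Nat.totient k) → ℤ) : val k (a + b) = val k a + val k b := by
  simp only [val, Pi.add_apply, Int.cast_add, add_mul, sum_add_distrib]

lemma val_neg (k : ℕ) (a : Fin (Nat.totient k) → ℤ) : val k (-a) = -val k a := by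
  simp only [val, Pi.neg_apply, Int.cast_neg, neg_mul, sum_neg_distrib]

lemma val_sum (k : ℕ) {ι : Type*} (s : Finset ι) (c : ι → ℤ)
    (b : ι → Fin (Nat.totient k) → ℤ) :
    val k (∑ i ∈ s, c i • b i) = ∑ i ∈ s, (c i : ℂ) * val k (b i) := by
  simp only [val, Finset.sum_apply, Pi.smul_apply, smul_eq_mul, Int.cast_sum, Int.cast_mul,
    sum_mul, mul_sum]
  rw [sum_comm]
  refine sum_congr rfl fun i _ => sum_congr rfl fun j _ => by ring

lemma exists_A_nonempty (k : ℕ) (hk : 0 < k) : (A k).Nonempty := by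
  obtain ⟨a, ha⟩ := exists_val_pow k hk 0
  refine ⟨a, ?_⟩
  rw [mem_A, ha]
  simp

lemma F_eq (k : ℕ) (hk : 0 < k) (x : Fin (Nat.totient k) → ℂ) :
    F k x = ∑ a ∈ (A_finite k hk).toFinset, ∏ j, x j ^ a j :=
  finsum_mem_eq_finite_toFinset_sum _ _

lemma prod_zpow_eq {ι : Type*} (s : Finset ι) (x : ℂ) (hx : x ≠ 0) (f : ι → ℤ) :
    ∏ i ∈ s, x ^ f i = x ^ ∑ i ∈ s, f i := by
  classical
  induction s using Finset.induction_on with
  | empty => simp
  | insert i s hi ih => rw [prod_insert hi, sum_insert hi, zpow_add₀ hx, ih]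

/-- the Laurent polynomial `F_k` takes the value `1` on the unit torus -/
lemma takes_one_F (k : ℕ) (hk : 0 < k) :
    ∃ x : Fin (Nat.totient k) → ℂ, (∀ j, ‖x j‖ = 1) ∧ F k x = 1 := by
  have hne : (A_finite k hk).toFinset.Nonempty := by
    obtain ⟨a, ha⟩ := exists_A_nonempty k hk
    exact ⟨a, by simpa using ha⟩
  rcases Nat.even_or_odd k with heven | hodd
  · obtain ⟨x, hx, hx1⟩ := takes_one (Nat.totient k) (A_finite k hk).toFinset (fun a => a) hne
      (by
        rw [card_le_one]
        intro a ha b hb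
        rw [mem_filter] at ha hb
        rw [ha.2, hb.2])
      (real_of_symm _ _ _ (fun a => -a)
        (by
          intro a ha
          rw [Set.Finite.mem_toFinset, mem_A] at ha ⊢
          rw [val_neg, heven.neg_pow, ha])
        (fun a _ => neg_neg a) (fun a _ => rfl))
    exact ⟨x, hx, by rw [F_eq k hk]; exact hx1⟩
  · -- complex conjugation on coefficient vectors
    have hconj : ∀ j : Fin (Nat.totient k), ∃ b, val k b = (starRingEnd ℂ) (ζ k ^ (j : ℕ)) := by
      intro j
      obtain ⟨b, hb⟩ := exists_val_pow k hk ((k - 1) * j)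
      refine ⟨b, hb.trans ?_⟩
      have h1 : ζ k * (starRingEnd ℂ) (ζ k) = 1 := by
        rw [Complex.mul_conj, Complex.normSq_eq_norm_sq,
          Complex.norm_eq_one_of_pow_eq_one (prim k hk).pow_eq_one hk.ne']
        simp
      have h2 : ζ k * ζ k ^ (k - 1) = 1 := by
        rw [← pow_succ', Nat.sub_add_cancel hk, (prim k hk).pow_eq_one]
      have h3 : (starRingEnd ℂ) (ζ k) = ζ k ^ (k - 1) := by
        rw [eq_inv_of_mul_eq_one_right h1, eq_inv_of_mul_eq_one_right h2]
      rw [pow_mul, map_pow, h3]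
    choose b hb using hconj
    let τ : (Fin (Nat.totient k) → ℤ) → Fin (Nat.totient k) → ℤ := fun a => ∑ j, a j • b j
    have hτ : ∀ a, val k (τ a) = (starRingEnd ℂ) (val k a) := by
      intro a
      simp only [τ]
      rw [val_sum, val, map_sum]
      refine sum_congr rfl fun j _ => ?_
      rw [hb j, map_mul, map_intCast]
    have hττ : ∀ a, τ (τ a) = a := by
      intro a
      apply val_injective k hk
      rw [hτ, hτ, Complex.conj_conj]
    have hmem : ∀ a ∈ (A_finite k hk).toFinset, τ a ∈ (A_finite k hk).toFinset := by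
      intro a ha
      rw [Set.Finite.mem_toFinset, mem_A] at ha ⊢
      rw [hτ, ← map_pow, ha, map_one]
    obtain ⟨x, hx, hx1⟩ := takes_one (Nat.totient k) (A_finite k hk).toFinset
      (fun a => a - τ a) hne
      (by
        rw [card_le_one]
        have key : ∀ a ∈ (A_finite k hk).toFinset.filter (fun a => a - τ a = 0),
            val k a = 1 := by
          intro a ha
          rw [mem_filter, Set.Finite.mem_toFinset, mem_A] at ha
          obtain ⟨h1, h2⟩ := ha
          have h3 : (starRingEnd ℂ) (val k a) = val k a := by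
            rw [← hτ, ← sub_eq_zero.1 h2]
          obtain ⟨r, hr⟩ := Complex.conj_eq_iff_real.1 h3
          rw [hr] at h1 ⊢
          have h4 : r ^ k = 1 := by exact_mod_cast h1
          have h5 : r = 1 := by
            have : r ^ k = 1 ^ k := by rw [h4, one_pow]
            exact hodd.strictMono_pow.injective this
          rw [h5]
          simp
        intro a ha c hc
        apply val_injective k hk
        rw [key a ha, key c hc])
      (real_of_symm _ _ _ τ hmem (fun a _ => hττ a) (fun a _ => by rw [hττ]; abel))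
    have hx0 : ∀ j, x j ≠ 0 := by
      intro j h0
      have := hx j
      rw [h0] at this
      simp at this
    refine ⟨fun j => ∏ i, x i ^ ((Pi.single j (1 : ℤ) - b j : Fin (Nat.totient k) → ℤ) i),
      fun j => ?_, ?_⟩
    · rw [norm_prod]
      refine prod_eq_one fun i _ => ?_
      rw [norm_zpow, hx i, one_zpow]
    · rw [F_eq k hk, ← hx1]
      refine sum_congr rfl fun a _ => ?_
      have e1 : ∀ j, (∏ i, x i ^ ((Pi.single j (1 : ℤ) - b j : Fin (Nat.totient k) → ℤ) i)) ^ a j =
          ∏ i, x i ^ (((Pi.single j (1 : ℤ) - b j : Fin (Nat.totient k) → ℤ) i) * a j) := by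
        intro j
        rw [← prod_zpow]
        exact prod_congr rfl fun i _ => (zpow_mul _ _ _).symm
      rw [prod_congr rfl fun j _ => e1 j, prod_comm]
      refine prod_congr rfl fun i _ => ?_
      rw [prod_zpow_eq _ _ (hx0 i)]
      congr 1
      simp only [τ, Pi.sub_apply, Finset.sum_apply, Pi.smul_apply, smul_eq_mul, sub_mul,
        sum_sub_distrib]
      congr 1
      · rw [sum_eq_single i]
        · simp
        · intro j _ hj
          rw [Pi.single_eq_of_ne (Ne.symm hj), zero_mul]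
        · simp
      · exact sum_congr rfl fun j _ => mul_comm _ _

/-- the points of the cyclovariety `C_k : x₀ + F_k(x) = 0` on the unit torus -/
def torusPoints (k : ℕ) : Set (ℂ × (Fin (Nat.totient k) → ℂ)) :=
  {p | p.1 + F k p.2 = 0 ∧ ‖p.1‖ = 1 ∧ ∀ j, ‖p.2 j‖ = 1}

/-- For every `k ≥ 1` the cyclovariety `C_k : x₀ + F_k(x) = 0` meets the unit torus; there is
even a point with `x₀ = -1`. (The set `A_k` of exponents has exactly `k` elements.) -/
theorem result (k : ℕ) (hk : 1 ≤ k) :
    (A k).ncard = k ∧ ∃ x : Fin (Nat.totient k) → ℂ, ((-1 : ℂ), x) ∈ torusPoints k := by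
  obtain ⟨x, hx, h1⟩ := takes_one_F k hk
  exact ⟨A_ncard k hk, x, by show (-1 : ℂ) + F k x = 0; rw [h1]; ring, by simp, hx⟩

end Pool.Agent.Results.MP_086516_nt.MeetsTorus
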